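import Pool.Agent.Helper17_Syn.Chart
import Pool.Agent.Helper34_Synd.Finite

/-!
# MP_e6747d_al: groups with local modifications

The problem asks whether every group has a left-invariant syndetic submeasure (known for countable
groups).  We prove it for every group `G` (of any cardinality) which acts by homeomorphisms on a
topological space in such a way that for every `m` there are `m` elements of `G` with pairwise
disjoint supports, each of which has a point with a finite orbit in its support.  The support is
the closure of the set of points which are moved.  This covers

* all groups which act by homeomorphisms on a connected Hausdorff space such that for every `m`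
  there are `m` elements which act nontrivially and have pairwise disjoint supports;
* all groups with elements of finite order with pairwise disjoint supports, on any space;
* the homeomorphism groups of all manifolds of positive dimension;
* the automorphism groups of the ordered sets `ℚ`, `ℝ` and of all ordered fields (as ordered sets).
-/

set_option autoImplicit false

namespace Pool.Agent.Results.MP_e6747d_al.DisjointSupports

open Pool.Agent.Helper34_Synd Pool.Agent.Helper17_Syn

universe u v w

/-- The support of `g`: the closure of the set of points that `g` moves. -/
def Support {G : Type u} [Group G] {X : Type v} [TopologicalSpace X] [MulAction G X] (g : G) :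
    Set X := closure {x | g • x ≠ x}

/-- (1) `G` acts by homeomorphisms on a topological space such that for every `m` there are `m`
elements of `G` with pairwise disjoint supports, each of which has a finite orbit in its
support. -/
def LocalModifications (G : Type u) [Group G] : Prop :=
  ∃ (X : Type v) (_ : TopologicalSpace X) (_ : MulAction G X) (_ : ContinuousConstSMul G X),
    ∀ m : ℕ, ∃ e : Fin m → G,
      (∀ i j, i ≠ j → Disjoint (Support (X := X) (e i)) (Support (e j))) ∧
      ∀ i, ∃ p : X, p ∈ Support (X := X) (e i) ∧
        (MulAction.orbit (Subgroup.zpowers (e i)) p).Finite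

/-- (2) `G` acts by homeomorphisms on a connected Hausdorff space such that for every `m` there
are `m` elements of `G` which act nontrivially and have pairwise disjoint supports. -/
def ConnectedCase (G : Type u) [Group G] : Prop :=
  ∃ (X : Type v) (_ : TopologicalSpace X) (_ : T2Space X) (_ : ConnectedSpace X)
    (_ : MulAction G X) (_ : ContinuousConstSMul G X),
    ∀ m : ℕ, ∃ e : Fin m → G,
      (∀ i j, i ≠ j → Disjoint (Support (X := X) (e i)) (Support (e j))) ∧
      ∀ i, ∃ x : X, e i • x ≠ x

/-- (3) `G` acts by homeomorphisms on a topological space such that for every `m` there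
are `m` elements of `G` of finite order which act nontrivially and have pairwise disjoint
supports. -/
def TorsionCase (G : Type u) [Group G] : Prop :=
  ∃ (X : Type v) (_ : TopologicalSpace X) (_ : MulAction G X) (_ : ContinuousConstSMul G X),
    ∀ m : ℕ, ∃ e : Fin m → G,
      (∀ i j, i ≠ j → Disjoint (Support (X := X) (e i)) (Support (e j))) ∧
      ∀ i, IsOfFinOrder (e i) ∧ ∃ x : X, e i • x ≠ x

/-- (4) `G` acts by homeomorphisms on a Hausdorff space `X`, and there is a homeomorphism `φ` of a
nonempty open subset of `X` onto an open subset of a nonzero finite-dimensional normed space such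
that every homeomorphism of `X` with compact support inside the domain of `φ` is the action of some
element of `G`. -/
def ChartCase (G : Type u) [Group G] : Prop :=
  ∃ (X : Type v) (_ : TopologicalSpace X) (_ : T2Space X) (_ : MulAction G X)
    (_ : ContinuousConstSMul G X) (E : Type w) (_ : NormedAddCommGroup E) (_ : NormedSpace ℝ E)
    (_ : Nontrivial E) (_ : FiniteDimensional ℝ E) (φ : OpenPartialHomeomorph X E),
    φ.source.Nonempty ∧
      ∀ f : X ≃ₜ X, (∃ C : Set X, IsCompact C ∧ C ⊆ φ.source ∧ ∀ x, x ∉ C → f x = x) →
        ∃ g : G, ∀ x : X, g • x = f x

/-- (5) `G` is the group of all order automorphisms of the ordered set of an ordered field. -/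
def OrderCase (G : Type u) [Group G] : Prop :=
  ∃ (K : Type v) (_ : Field K) (_ : LinearOrder K) (_ : IsStrictOrderedRing K),
    Nonempty (G ≃* (K ≃o K))

theorem support_eq {G : Type u} [Group G] {X : Type v} [TopologicalSpace X] [MulAction G X]
    (g : G) : (Support g : Set X) = supp g := rfl

/-- **Groups with local modifications.** -/
theorem result (G : Type u) [Group G] (h : LocalModifications.{u, v} G ∨ ConnectedCase.{u, v} G ∨
    TorsionCase.{u, v} G ∨ ChartCase.{u, v, w} G ∨ OrderCase.{u, v} G) :
    HasSyndeticSubmeasure G := by
  apply hasSyndeticSubmeasure_of_good'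
  rcases h with ⟨X, _, _, _, h⟩ | ⟨X, _, _, _, _, _, h⟩ | ⟨X, _, _, _, h⟩ |
    ⟨X, _, _, _, _, E, _, _, _, _, φ, hφ, h⟩ | ⟨K, _, _, _, ⟨θ⟩⟩
  · refine good_of_supports (X := X) fun m => ?_
    obtain ⟨e, h1, h2⟩ := h m
    refine ⟨e, h1, fun i => ?_⟩
    obtain ⟨p, hp, hf⟩ := h2 i
    refine ⟨p, hf, fun hcon => ?_⟩
    exact not_mem_supp.2 hcon hp
  · exact good_of_supports_connected (X := X) h
  · exact good_of_supports_torsion (X := X) h
  · exact good_of_chart φ hφ h
  · have h1 : Good (K ≃o K) := good_orderIso K
    exact good_of_surjective θ.toMonoidHom θ.surjective h1

end Pool.Agent.Results.MP_e6747d_al.DisjointSupports
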