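import Pool.Agent.Helper34_Synd.Normal
import Pool.Agent.Helper34_Synd.FlowAut
import Pool.Agent.Helper34_Synd.Hyp
import Pool.Agent.Helper34_Synd.Finite
import Pool.Agent.Helper83_Comp.Bool

/-!
# MP_e6747d_al: left-invariant syndetic submeasures on large classes of uncountable groups

The problem asks whether every group has a left-invariant syndetic submeasure (known for countable
groups).  We prove it for every group `G` of arbitrary cardinality satisfying one of:

1. some quotient of `G` has an infinite normal subgroup which is countable or amenable;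
2. some quotient `Q` of `G` has a countable subgroup `H` such that any finitely many conjugates of
   `H` have a common infinite finitely generated subgroup;
3. `G` has an infinite minimal flow with an invariant Borel probability measure;
4. `G` has a minimal flow with infinitely many automorphisms;
5. `G` has an unbounded quasimorphism;
6. `G` acts by isometries on a Gromov hyperbolic space with a loxodromic element;
7. `G` acts on an infinite Boolean algebra in a compressing way (this includes the automorphism
   groups of all infinite homogeneous Boolean algebras and the homeomorphism group of the Cantor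
   set).
-/

set_option autoImplicit false

namespace Pool.Agent.Results.MP_e6747d_al.LargeClass

open Pool.Agent.Helper34_Synd

universe u v

/-- (1) A quotient of `G` has an infinite normal subgroup that is countable or amenable. -/
def NormalCase (G : Type u) [Group G] : Prop :=
  ∃ (Q : Type u) (_ : Group Q) (π : G →* Q), Function.Surjective π ∧
    ∃ N : Subgroup Q, N.Normal ∧ Infinite N ∧ (Countable N ∨ Amenable N)

/-- (2) A quotient `Q` of `G` has a countable subgroup `H` such that for every finite `S ⊆ Q`
there is an infinite finitely generated subgroup of `⋂_{s ∈ S} s H s⁻¹`. -/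
def SectionCase (G : Type u) [Group G] : Prop :=
  ∃ (Q : Type u) (_ : Group Q) (π : G →* Q), Function.Surjective π ∧
    ∃ H : Subgroup Q, Countable H ∧
      ∀ S : Finset Q, ∃ Λ : Subgroup Q, Λ.FG ∧ (Λ : Set Q).Infinite ∧
        ∀ s ∈ S, ∀ k ∈ Λ, s⁻¹ * k * s ∈ H

/-- (3) `G` acts minimally by homeomorphisms on an infinite compact Hausdorff space with an
invariant outer regular Borel probability measure. -/
def MeasureFlowCase (G : Type u) [Group G] : Prop :=
  ∃ (X : Type v) (_ : TopologicalSpace X) (_ : CompactSpace X) (_ : T2Space X)
    (_ : MulAction G X) (_ : ContinuousConstSMul G X) (_ : MulAction.IsMinimal G X)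
    (_ : MeasurableSpace X) (_ : BorelSpace X) (ν : MeasureTheory.Measure X),
    Infinite X ∧ MeasureTheory.IsProbabilityMeasure ν ∧ ν.OuterRegular ∧
      ∀ (g : G) (A : Set X), MeasurableSet A → ν ((fun x => g • x) '' A) = ν A

/-- (4) `G` acts minimally by homeomorphisms on a nonempty compact Hausdorff space, and infinitely
many homeomorphisms of the space commute with `G`. -/
def AutomorphismFlowCase (G : Type u) [Group G] : Prop :=
  ∃ (X : Type v) (_ : TopologicalSpace X) (_ : CompactSpace X) (_ : T2Space X)
    (_ : MulAction G X) (_ : ContinuousConstSMul G X) (_ : MulAction.IsMinimal G X),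
    Nonempty X ∧ {φ : X ≃ₜ X | ∀ (g : G) (x : X), φ (g • x) = g • φ x}.Infinite

/-- (5) `G` has an unbounded quasimorphism. -/
def QuasimorphismCase (G : Type u) [Group G] : Prop :=
  ∃ (φ : G → ℝ) (δ : ℝ), (∀ x y, |φ (x * y) - φ x - φ y| ≤ δ) ∧ ∀ C : ℝ, ∃ g, C < |φ g|

/-- (6) `G` acts by isometries on a Gromov hyperbolic space (four point condition) and some `h`
in `G` is loxodromic: its orbit of some point grows at least linearly. -/
def HyperbolicCase (G : Type u) [Group G] : Prop :=
  ∃ (X : Type v) (_ : PseudoMetricSpace X) (_ : MulAction G X),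
    (∀ (g : G) (x y : X), dist (g • x) (g • y) = dist x y) ∧
    (∃ δ : ℝ, ∀ x y z w : X, dist x y + dist z w ≤
      max (dist x z + dist y w) (dist x w + dist y z) + 2 * δ) ∧
    ∃ (o : X) (h : G) (c : ℝ), 0 < c ∧ ∀ k : ℕ, c * k ≤ dist o (h ^ k • o)

/-- (7) `G` acts by automorphisms on an infinite Boolean algebra `B` and every finite family of
pairwise disjoint nonzero elements of `B` whose join is not `⊤` can be moved below every family of
pairwise disjoint nonzero elements (with the same number of members). -/
def CompressingCase (G : Type u) [Group G] : Prop :=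
  ∃ (B : Type v) (_ : BooleanAlgebra B) (_ : MulAction G B), Infinite B ∧
    (∀ (g : G) (a b : B), a ≤ b → g • a ≤ g • b) ∧
    ∀ (k : ℕ) (D V : Fin k → B), (∀ i, D i ≠ ⊥) → (∀ i, V i ≠ ⊥) →
      (∀ i j, i ≠ j → Disjoint (D i) (D j)) → (∀ i j, i ≠ j → Disjoint (V i) (V j)) →
      Finset.univ.sup D ≠ ⊤ → ∃ g : G, ∀ i, g • D i ≤ V i

/-- Every group in one of the seven classes has a left-invariant syndetic submeasure. -/
theorem result (G : Type u) [Group G]
    (hG : NormalCase G ∨ SectionCase G ∨ MeasureFlowCase.{u, v} G ∨
      AutomorphismFlowCase.{u, v} G ∨ QuasimorphismCase G ∨ HyperbolicCase.{u, v} G ∨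
      CompressingCase.{u, v} G) :
    HasSyndeticSubmeasure G := by
  apply hasSyndeticSubmeasure_of_good'
  rcases hG with h | h | h | h | h | h | h
  · obtain ⟨Q, _, π, hπ, N, hN, hNi, hN' | hN'⟩ := h
    · exact good_of_surjective π hπ (good_of_normal_countable N)
    · exact good_of_surjective π hπ (good_of_normal_amenable N hN')
  · obtain ⟨Q, _, π, hπ, H, hH, hS⟩ := h
    exact good_of_surjective π hπ (good_of_sections H hS)
  · obtain ⟨X, _, _, _, _, _, _, _, _, ν, hX, h1, h2, h3⟩ := h
    exact good_of_invariant_measure (X := X) ν h3
  · obtain ⟨X, _, _, _, _, _, _, hX, h1⟩ := h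
    exact good_of_automorphisms (X := X) h1
  · obtain ⟨φ, δ, h1, h2⟩ := h
    exact good_of_coarseWindows (coarseWindows_of_quasimorphism φ δ h1 h2)
  · obtain ⟨X, _, _, h1, ⟨δ, h2⟩, o, h, c, hc, h3⟩ := h
    exact good_of_coarseWindows (coarseWindows_of_loxodromic h1 δ h2 o h c hc h3)
  · obtain ⟨B, _, _, _, h1, h2⟩ := h
    exact Pool.Agent.Helper83Comp.good_of_compressing (B := B) ⟨h1, h2⟩

end Pool.Agent.Results.MP_e6747d_al.LargeClass
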