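import Pool.Agent.Helper31_Lin.Ind
import Pool.Agent.Helper31_Lin.Quo
import Pool.Agent.Helper50_Lin.Trs
import Pool.Agent.Helper52_Lin.Eig
import Pool.Agent.Helper52_Lin.Fin
import Pool.Agent.Helper63_Lin.D
import Pool.Agent.Helper81_Lin.A
import Pool.Agent.Helper81_Lin.Z

/-!
# MP_e6747d_al: left-invariant syndetic submeasures on linear groups

The problem asks whether every group has a left-invariant syndetic submeasure (known for countable
groups).  We prove it for all infinite linear groups: subgroups of `GL_n(F)`, where `F` is any field
and `n` any natural number.  More generally it is enough that `G` is residually linear, or just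
that the finite-dimensional representations of `G` over all fields do not all factor through one
finite quotient of `G`.
-/

set_option autoImplicit false

namespace Pool.Agent.Results.MP_e6747d_al.LinearGroups

open Pool.Agent.Helper34_Synd Pool.Agent.Lin52

universe u w

/-- No subgroup of finite index of `G` is in the kernel of all finite-dimensional representations of
`G` over fields. -/
def ManyRepresentations (G : Type u) [Group G] : Prop :=
  ∀ K : Subgroup G, K.FiniteIndex → ∃ (F : Type w) (_ : Field F) (n : ℕ)
    (ρ : G →* Matrix.GeneralLinearGroup (Fin n) F), ∃ g ∈ K, ρ g ≠ 1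

/-- Infinite residually linear groups have many representations. -/
theorem manyRepresentations_of_residually {G : Type u} [Group G] [Infinite G]
    (h : ∀ g : G, g ≠ 1 → ∃ (F : Type w) (_ : Field F) (n : ℕ)
      (ρ : G →* Matrix.GeneralLinearGroup (Fin n) F), ρ g ≠ 1) :
    ManyRepresentations.{u, w} G := by
  intro K hK
  have hK1 : K ≠ ⊥ := by
    rintro rfl
    exact Infinite.not_finite ((Subgroup.finite_iff_finite_and_finiteIndex (H := (⊥ : Subgroup G))).2
      ⟨inferInstance, hK⟩)
  obtain ⟨g, hgK, hg⟩ := (Subgroup.ne_bot_iff_exists_ne_one).1 hK1 |>.elim fun x hx =>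
    (⟨x.1, x.2, fun h0 => hx (Subtype.ext h0)⟩ : ∃ g, g ∈ K ∧ g ≠ 1)
  obtain ⟨F, hF, n, ρ, hρ⟩ := h g hg
  exact ⟨F, hF, n, ρ, g, hgK, hρ⟩

/-- Infinite linear groups have many representations. -/
theorem manyRepresentations_of_linear {G : Type u} [Group G] [Infinite G] {F : Type w} [Field F]
    {n : ℕ} (ρ : G →* Matrix.GeneralLinearGroup (Fin n) F) (hρ : Function.Injective ρ) :
    ManyRepresentations.{u, w} G :=
  manyRepresentations_of_residually fun _ hg =>
    ⟨F, inferInstance, n, ρ, fun h0 => hg (hρ (h0.trans (map_one ρ).symm))⟩

/-- Let `G` be a group of any cardinality such that no subgroup of finite index is in the kernel of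
all finite-dimensional representations of `G` over fields.  Then `G` has a left-invariant syndetic
submeasure. -/
theorem result (G : Type u) [Group G] (hG : ManyRepresentations.{u, w} G) :
    HasSyndeticSubmeasure G := by
  refine strong.{u, w} (H81.z (H31.i H63.d H50.trs c H81.a) H31.q) H31.q G fun K hK => ?_
  obtain ⟨F, hF, n, ρ, g, hg, hρ⟩ := hG K hK
  exact ⟨F, hF, n, ρ, fun hle => hρ (hle hg)⟩

end Pool.Agent.Results.MP_e6747d_al.LinearGroups
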