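import Pool.Agent.Helper56_Tow.Reduction
import Pool.Agent.Helper83_Card.Main

/-!
# MP_e6747d_al: the structure of a counterexample, reduction to simple groups

The problem asks whether every group has a left-invariant syndetic submeasure.  Let `G` be a group
of any cardinality without such a submeasure.  We prove that

1. `G` satisfies the ascending and the descending chain condition for normal subgroups;
2. every minimal flow of `G` has a `π`-base of cardinality at most `|G|`;
3. some normal subgroup of finite index of `G` has an uncountable simple quotient which has no
   left-invariant syndetic submeasure either;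
4. if `G` has cardinality `ℵ₁` then the Baire space is the union of `ℵ₁` nowhere dense sets
   (so a counterexample of cardinality `ℵ₁` cannot be constructed in ZFC alone).

So the question for all groups is equivalent to the question for uncountable simple groups, and the
answer is positive for every group no subgroup of finite index of which has an uncountable simple
quotient.
-/

set_option autoImplicit false

namespace Pool.Agent.Results.MP_e6747d_al.ReductionToSimple

open Pool.Agent.Helper34_Synd Pool.Agent.Helper56_Tow

open scoped Cardinal

universe u v

/-- The chain conditions for normal subgroups: monotone and antitone sequences of normal subgroups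
are eventually constant. -/
def ChainConditions (G : Type u) [Group G] : Prop :=
  ∀ N : ℕ → Subgroup G, (∀ i, (N i).Normal) → (Monotone N ∨ Antitone N) →
    ∃ k, ∀ m, k ≤ m → N m = N k

/-- Every minimal flow of `G` (a nonempty compact Hausdorff space on which `G` acts by
homeomorphisms with dense orbits) has a `π`-base indexed by `G`: nonempty open sets `B g` such
that every nonempty open set contains one of them. -/
def SmallFlows.{w} (G : Type u) [Group G] : Prop :=
  ∀ (X : Type w) [TopologicalSpace X] [CompactSpace X] [T2Space X] [Nonempty X] [MulAction G X]
    [ContinuousConstSMul G X] [MulAction.IsMinimal G X],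
    ∃ B : G → Set X, (∀ g, IsOpen (B g) ∧ (B g).Nonempty) ∧
      ∀ O : Set X, IsOpen O → O.Nonempty → ∃ g, B g ⊆ O

/-- A normal subgroup of finite index of `G` maps onto an uncountable simple group without
left-invariant syndetic submeasure. -/
def SimpleCounterexample (G : Type u) [Group G] : Prop :=
  ∃ H : Subgroup G, H.Normal ∧ H.FiniteIndex ∧ ∃ (S : Type u) (_ : Group S) (π : H →* S),
    Function.Surjective π ∧ IsSimpleGroup S ∧ Uncountable S ∧ ¬ HasSyndeticSubmeasure S

/-- If `G` has cardinality `ℵ₁` then the Baire space is covered by `ℵ₁` nowhere dense sets: some
family of dense open subsets indexed by `G` has no common point. -/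
def MeagerCover (G : Type u) : Prop :=
  #G = ℵ₁ → ∃ D : G → Set (ℕ → ℕ), (∀ g, IsOpen (D g) ∧ Dense (D g)) ∧ ⋂ g, D g = ∅

/-- Sequences of normal subgroups in a group without left-invariant syndetic submeasure. -/
theorem chainConditions {G : Type u} [Group G] (hG : ¬ Good G) : ChainConditions G := by
  intro N hN hmon
  by_contra hcon
  push Not at hcon
  choose f hf1 hf2 using hcon
  -- a strictly monotone subsequence
  let φ : ℕ → ℕ := fun i => Nat.rec 0 (fun _ k => f k) i
  have hφ : ∀ i, φ (i + 1) = f (φ i) := fun i => rfl
  have hle : ∀ i, φ i ≤ φ (i + 1) := fun i => by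
    rw [hφ]
    exact hf1 _
  have hne : ∀ i, N (φ (i + 1)) ≠ N (φ i) := fun i => by
    rw [hφ]
    exact hf2 _
  apply hG
  rcases hmon with h | h
  · exact good_of_strictMono (fun i => N (φ i)) (fun i => hN _)
      fun i => lt_of_le_of_ne (h (hle i)) (hne i).symm
  · exact good_of_strictAnti (fun i => N (φ i)) (fun i => hN _)
      fun i => lt_of_le_of_ne (h (hle i)) (hne i)

/-- **Structure of a counterexample.** -/
theorem result (G : Type u) [Group G] (hG : ¬ HasSyndeticSubmeasure G) :
    ChainConditions G ∧ SmallFlows.{u, v} G ∧ SimpleCounterexample G ∧ MeagerCover G := by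
  have hgood : ¬ Good G := fun h => hG (hasSyndeticSubmeasure_of_good' h)
  have hinf : Infinite G := by
    rw [← not_finite_iff_infinite]
    intro hf
    exact hG hasSyndeticSubmeasure_of_finite
  refine ⟨chainConditions hgood, ?_, ?_, ?_⟩
  · intro X _ _ _ _ _ _ _
    by_contra hcon
    push Not at hcon
    exact hgood (good_of_piWeight (X := X) fun B hB => hcon B hB)
  · by_contra hcon
    apply hG
    refine hasSyndeticSubmeasure_of_simple_quotients G fun H hH hHf S _ π hπ hS hu => ?_
    by_contra hSn
    exact hcon ⟨H, hH, hHf, S, inferInstance, π, hπ, hS, hu, hSn⟩
  · intro hcard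
    by_contra hcon
    push Not at hcon
    exact hG (Pool.Agent.Helper83Card.aleph_one hcard hcon)

/-- The question for all groups is equivalent to the question for uncountable simple groups. -/
theorem all_iff_simple : (∀ (G : Type u) [Group G], HasSyndeticSubmeasure G) ↔
    ∀ (S : Type u) [Group S], IsSimpleGroup S → Uncountable S → HasSyndeticSubmeasure S :=
  ⟨fun h S _ _ _ => h S, fun h G _ => by
    by_contra hG
    obtain ⟨_, _, _, S, _, _, _, hS, hu, hn⟩ := (result.{u, u} G hG).2.2.1
    exact hn (h S hS hu)⟩

end Pool.Agent.Results.MP_e6747d_al.ReductionToSimple
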